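import Pool.Agent.Helper53.Smash.Defs

/-!
# Cycles over a subfield `k` of the complex numbers, and cycles over the complex numbers

Three categories of smooth schemes, non-empty and of pure dimension:
* `𝒱`: the smooth projective schemes over `k`;
* `𝒰`: the smooth quasi-projective schemes over `k`;
* `𝒲`: the connected smooth projective varieties over the complex numbers.

The case of interest is the field `k` of the rational numbers. For `𝒱` we use the rational Chow rings with
blow-ups `T : BlowupTheory 𝒱` of `Pool/Agent/Helper53/Smash/Defs.lean`, where `T.hom X` is the ideal of the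
NUMERICALLY trivial cycles. In all cases `gr X i` consists of the cycles of codimension `i` for `i ≥ 1`, and of the
multiples of the fundamental class for `i = 0`.
-/

set_option autoImplicit false
set_option linter.unusedVariables false

open CategoryTheory CategoryTheory.Limits

namespace Pool.Agent.Helper5.Zq

open Pool.Agent.Helper81.Smash Pool.Agent.Helper53.Smash

universe u v w

/-- `a` is a cycle of codimension `i` -/
def Codim {𝒰 : Type u} [Category.{v} 𝒰] (T : Cycles.{u, v, w} 𝒰) {X : 𝒰} (i : ℕ) (a : T.A X) : Prop :=
  a ∈ T.gr X i

/-- the exterior power `a × ⋯ × a` on `X ^ m` is zero -/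
def PowerZero {𝒰 : Type u} [Category.{v} 𝒰] [HasFiniteProducts 𝒰] (T : Cycles.{u, v, w} 𝒰) {X : 𝒰}
    (a : T.A X) (m : ℕ) : Prop :=
  T.smash a m = 0

/-- the pull-back `f^* a` -/
def pb {𝒰 : Type u} [Category.{v} 𝒰] (T : Cycles.{u, v, w} 𝒰) {X Y : 𝒰} (f : X ⟶ Y) (a : T.A Y) : T.A X :=
  T.pull f a

/-- Rational Chow rings of smooth schemes, with the cycles which are homologically trivial: their class in the
Betti cohomology of the complex points is zero. -/
structure BettiCycles (𝒰 : Type u) [Category.{v} 𝒰] extends Cycles.{u, v, w} 𝒰 where
  /-- the homologically trivial cycles -/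
  IsHom : ∀ {X : 𝒰}, A X → Prop

/-- pull-backs respect homological triviality and codimensions -/
def BettiCycles.PullBack {𝒰 : Type u} [Category.{v} 𝒰] (C : BettiCycles.{u, v, w} 𝒰) : Prop :=
  ∀ {X Y : 𝒰} (f : X ⟶ Y) (a : C.A Y), (C.IsHom a → C.IsHom (pb C.toCycles f a)) ∧
    ∀ i : ℕ, Codim C.toCycles i a → Codim C.toCycles i (pb C.toCycles f a)

/-- Voevodsky's conjecture: all homologically trivial cycles are smash-nilpotent. -/
def BettiCycles.Voevodsky {𝒲 : Type u} [Category.{v} 𝒲] [HasFiniteProducts 𝒲]
    (C : BettiCycles.{u, v, w} 𝒲) : Prop :=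
  ∀ (X : 𝒲) (i : ℕ) (a : C.A X), Codim C.toCycles i a → C.IsHom a → ∃ m : ℕ, 1 ≤ m ∧ PowerZero C.toCycles a m

/-! ### Numerical and homological equivalence on projective schemes -/

section projective

variable {𝒱 : Type u} [Category.{v} 𝒱] [HasFiniteProducts 𝒱]

/-- Degrees, and the homologically trivial cycles, on the smooth projective schemes over `k`. -/
structure Degrees (S : HomCycles.{u, v, w} 𝒱) where
  /-- the degree of the component of dimension zero of a cycle -/
  deg : ∀ X : 𝒱, S.A X →ₗ[ℚ] ℚ
  /-- the ideal of the homologically trivial cycles -/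
  betti : ∀ X : 𝒱, Ideal (S.A X)

variable {S : HomCycles.{u, v, w} 𝒱}

/-- `a` is numerically trivial -/
def IsNum {X : 𝒱} (a : S.A X) : Prop := a ∈ S.hom X

namespace Degrees

variable (R : Degrees S)

/-- the intersection number of `a` and `b` -/
def number {X : 𝒱} (a b : S.A X) : ℚ := R.deg X (a * b)

/-- `a` is homologically trivial -/
def IsBetti {X : 𝒱} (a : S.A X) : Prop := a ∈ R.betti X

/-- `S.hom X` is the ideal of the numerically trivial cycles -/
def NumIff : Prop := ∀ {X : 𝒱} (a : S.A X), IsNum a ↔ ∀ b : S.A X, R.number a b = 0

/-- the space of cycles modulo numerical equivalence is finite-dimensional -/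
def FiniteRank (S : HomCycles.{u, v, w} 𝒱) : Prop := ∀ X : 𝒱, Module.Finite ℚ (S.A X ⧸ S.hom X)

/-- the homogeneous components of a numerically trivial cycle are numerically trivial -/
def Homogeneous (S : HomCycles.{u, v, w} 𝒱) : Prop := ∀ {X : 𝒱} (a : S.A X), IsNum a →
  a ∈ Submodule.span ℚ {b : S.A X | IsNum b ∧ ∃ i : ℕ, Codim S.toCycles i b}

/-- homologically trivial cycles are numerically trivial -/
def BettiNum : Prop := ∀ {X : 𝒱} (a : S.A X), R.IsBetti a → IsNum a

/-- Kuenneth formula: the exterior powers of a non-zero cohomology class are not zero -/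
def Kunneth : Prop := ∀ {X : 𝒱} (a : S.A X) (m : ℕ), 1 ≤ m → R.IsBetti (S.smash a m) → R.IsBetti a

/-- The elementary properties of numerical and homological equivalence. -/
structure Standard : Prop where
  num_iff : R.NumIff
  finite : FiniteRank S
  homogeneous : Homogeneous S
  betti_num : R.BettiNum
  kunneth : R.Kunneth

/-- Grothendieck's standard conjecture D over `k`: numerically trivial cycles are homologically trivial. -/
def StandardD : Prop := ∀ (X : 𝒱) (a : S.A X), IsNum a → R.IsBetti a

end Degrees

end projective

/-! ### Open schemes and their compactifications -/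

section open'

variable {𝒱 : Type u} [Category.{v} 𝒱] [HasFiniteProducts 𝒱] {𝒰 : Type u} [Category.{v} 𝒰]

/-- The inclusion of the smooth projective schemes in the smooth quasi-projective schemes. -/
structure Inclusion (S : HomCycles.{u, v, w} 𝒱) (O : BettiCycles.{u, v, w} 𝒰) where
  /-- the inclusion functor -/
  incl : 𝒱 ⥤ 𝒰
  preserves : PreservesFiniteProducts incl
  /-- the cycles on a projective scheme -/
  cyc : ∀ X : 𝒱, S.A X →ₐ[ℚ] O.A (incl.obj X)

variable {S : HomCycles.{u, v, w} 𝒱} {O : BettiCycles.{u, v, w} 𝒰}

namespace Inclusion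

variable (I : Inclusion S O)

/-- a cycle on a projective scheme as a cycle on a quasi-projective scheme -/
def cycle {X : 𝒱} (x : S.A X) : O.A (I.incl.obj X) := I.cyc X x

/-- the cycles on a projective scheme, with their pull-backs, are the same in both theories -/
def Compatible : Prop := ∀ {X Y : 𝒱} (f : X ⟶ Y) (a : S.A Y),
  I.cycle (pb S.toCycles f a) = pb O.toCycles (I.incl.map f) (I.cycle a)

end Inclusion

/-- A projective scheme `X` with a morphism `j : U ⟶ X`, and projective schemes `Z l`, `l < r`, with morphisms to
`X` and push-forwards. -/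
structure Compactification (I : Inclusion S O) (U : 𝒰) where
  X : 𝒱
  j : U ⟶ I.incl.obj X
  r : ℕ
  Z : Fin r → 𝒱
  i : ∀ l : Fin r, Z l ⟶ X
  /-- the push-forward under `i l` -/
  push : ∀ l : Fin r, S.A (Z l) → S.A X

namespace Compactification

variable {I : Inclusion S O} {U : 𝒰} (K : Compactification I U)

/-- the restriction of a cycle on `X` to `U` -/
def onU (x : S.A K.X) : O.A U := pb O.toCycles K.j (I.cycle x)

/-- the restriction of a cycle on `X` to `Z l` -/
def onZ (l : Fin K.r) (x : S.A K.X) : S.A (K.Z l) := pb S.toCycles (K.i l) x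

/-- cycles on `U` have closures in `X` -/
def Closures : Prop := ∀ u : O.A U, ∃ x : S.A K.X, K.onU x = u

/-- projection formula for `Z l ⟶ X` -/
def Projection (R : Degrees S) : Prop := ∀ (l : Fin K.r) (z : S.A (K.Z l)) (y : S.A K.X),
  R.number (K.push l z) y = R.number z (K.onZ l y)

/-- the cycles on the boundary restrict to zero on `U` -/
def Boundary : Prop := ∀ (l : Fin K.r) (z : S.A (K.Z l)), K.onU (K.push l z) = 0

/-- Deligne: a cohomology class `x` on `X` which restricts to zero on `U` is a sum of images of classes on the
`Z l`; so its intersection number with a cycle `y` which is homologically trivial on the `Z l` is zero -/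
def Deligne (R : Degrees S) : Prop := ∀ x y : S.A K.X, O.IsHom (K.onU x) →
  (∀ l, R.IsBetti (K.onZ l y)) → R.number x y = 0

/-- the component `y` of codimension `p` of a numerically trivial cycle `x` on `X` which is of codimension `p` on
`U` -/
def Components : Prop := ∀ (p : ℕ) (x : S.A K.X), 1 ≤ p → IsNum x → Codim O.toCycles p (K.onU x) →
  ∃ y : S.A K.X, Codim S.toCycles p y ∧ IsNum y ∧ K.onU y = K.onU x

/-- `X` is a smooth projective compactification of `U` (Hironaka), whose boundary is a divisor with strict normal
crossings, with components `Z l`. -/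
structure IsSmooth (R : Degrees S) : Prop where
  closures : K.Closures
  projection : K.Projection R
  boundary : K.Boundary
  deligne : K.Deligne R
  components : K.Components

end Compactification

end open'

/-! ### Spreading out -/

/-- A smooth projective family `map : total ⟶ base`, with its fibre powers over the base. -/
structure Family (𝒰 : Type u) [Category.{v} 𝒰] where
  total : 𝒰
  base : 𝒰
  map : total ⟶ base
  hasPowers : ∀ m : ℕ, HasWidePullback base (fun _ : Fin m => total) fun _ => map

attribute [instance] Family.hasPowers

/-- the fibre power of the total space over the base -/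
noncomputable def Family.fibrePower {𝒰 : Type u} [Category.{v} 𝒰] (F : Family 𝒰) (m : ℕ) : 𝒰 :=
  widePullback F.base (fun _ : Fin m => F.total) fun _ => F.map

/-- the projections of the fibre power -/
noncomputable def Family.proj {𝒰 : Type u} [Category.{v} 𝒰] (F : Family 𝒰) {m : ℕ} (k : Fin m) :
    F.fibrePower m ⟶ F.total :=
  WidePullback.π (fun _ : Fin m => F.map) k

section complex

variable {𝒰 : Type u} [Category.{v} 𝒰] {𝒲 : Type u} [Category.{v} 𝒲] [HasFiniteProducts 𝒲]

/-- A cycle on the total space of a family, the restriction of the cycles on its fibre powers to the generic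
fibre, over the complex numbers, and a filtration of the cycles on the fibre powers. -/
structure Spreading (O : BettiCycles.{u, v, w} 𝒰) (C : BettiCycles.{u, v, w} 𝒲) (X : 𝒲) extends
    Family 𝒰 where
  cycle : O.A total
  /-- the restriction to the generic fibre, over the complex numbers -/
  generic : ∀ m : ℕ, O.A (toFamily.fibrePower m) →ₐ[ℚ] C.A (power X m)
  /-- the cohomology class of the cycle is in the step `q` of the Leray filtration -/
  InLeray : ∀ {m : ℕ} (q : ℕ), O.A (toFamily.fibrePower m) → Prop

namespace Spreading

variable {O : BettiCycles.{u, v, w} 𝒰} {C : BettiCycles.{u, v, w} 𝒲} {X : 𝒲} (S : Spreading O C X)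

/-- the pull-back of the cycle under a projection of the fibre power -/
noncomputable def copy {m : ℕ} (k : Fin m) : O.A (S.fibrePower m) := pb O.toCycles (S.proj k) S.cycle

/-- the restriction to the generic fibre, over the complex numbers -/
noncomputable def gen {m : ℕ} (x : O.A (S.fibrePower m)) : C.A (power X m) := S.generic m x

/-- the cycle restricts to the cycle `a` on `X` -/
def Extends (a : C.A X) : Prop := ∀ (m : ℕ) (k : Fin m), S.gen (S.copy k) = pb C.toCycles (coord X k) a

/-- all cycles are in the step zero -/
def LerayZero : Prop := ∀ (m : ℕ) (x : O.A (S.fibrePower m)), S.InLeray 0 x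

/-- the cycles which are homologically trivial on the generic fibre are in the step one -/
def LerayOne : Prop := ∀ (m : ℕ) (x : O.A (S.fibrePower m)), C.IsHom (S.gen x) → S.InLeray 1 x

/-- the Leray filtration is multiplicative -/
def LerayMul : Prop := ∀ (m q q' : ℕ) (x y : O.A (S.fibrePower m)), S.InLeray q x → S.InLeray q' y →
  S.InLeray (q + q') (x * y)

/-- Artin: the base is affine of dimension `n`, so the step `n + 1` is zero in cohomology -/
def Artin (n : ℕ) : Prop := ∀ (m : ℕ) (x : O.A (S.fibrePower m)), S.InLeray (n + 1) x → O.IsHom x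

/-- The family is smooth and projective over a smooth, irreducible and AFFINE base over `k`, of dimension `n`, its
generic fibre becomes `X` over the complex numbers, and its cycle, of codimension `p`, becomes `a`. -/
structure IsSpreading (a : C.A X) (p n : ℕ) : Prop where
  codim : Codim O.toCycles p S.cycle
  extends_ : S.Extends a
  leray_zero : S.LerayZero
  leray_one : S.LerayOne
  leray_mul : S.LerayMul
  artin : S.Artin n

end Spreading

/-- The cycle `a` of codimension `p` on the complex variety `X` is defined over an extension of `k` of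
transcendence degree `n`: it comes from a cycle on a family over an affine base over `k` of dimension `n`. -/
def DefinedOver (O : BettiCycles.{u, v, w} 𝒰) (C : BettiCycles.{u, v, w} 𝒲) {X : 𝒲} (a : C.A X) (p n : ℕ) :
    Prop :=
  ∃ S : Spreading O C X, S.IsSpreading a p n

end complex

/-! ### From `k` to the complex numbers -/

section base

variable {𝒱 : Type u} [Category.{v} 𝒱] [HasFiniteProducts 𝒱] {𝒲 : Type u} [Category.{v} 𝒲]
  [HasFiniteProducts 𝒲] {S : HomCycles.{u, v, w} 𝒱}

/-- The complex variety defined by a geometrically connected scheme `Y` over `k`, with the base change of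
cycles. -/
structure Complexification (S : HomCycles.{u, v, w} 𝒱) (C : BettiCycles.{u, v, w} 𝒲) (Y : 𝒱) where
  X : 𝒲
  map : S.A Y → C.A X

namespace Complexification

variable {C : BettiCycles.{u, v, w} 𝒲} {Y : 𝒱} (M : Complexification S C Y)

/-- base change respects codimensions -/
def MapCodim : Prop := ∀ (i : ℕ) (a : S.A Y), Codim S.toCycles i a → Codim C.toCycles i (M.map a)

/-- base change respects homological triviality -/
def MapHom (R : Degrees S) : Prop := ∀ a : S.A Y, R.IsBetti a → C.IsHom (M.map a)

/-- base change respects exterior powers, and is injective on the rational Chow groups of `Y ^ m` -/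
def Injective : Prop := ∀ (a : S.A Y) (m : ℕ), PowerZero C.toCycles (M.map a) m → PowerZero S.toCycles a m

/-- the properties of the base change of cycles -/
structure IsBaseChange (R : Degrees S) : Prop where
  map_codim : M.MapCodim
  map_hom : M.MapHom R
  injective : M.Injective

end Complexification

end base

/-- Cycles over `k` and over the complex numbers. -/
structure CyclesOver (𝒱 : Type u) [Category.{v} 𝒱] [HasFiniteProducts 𝒱] (𝒰 : Type u)
    [Category.{v} 𝒰] (𝒲 : Type u) [Category.{v} 𝒲] [HasFiniteProducts 𝒲] where
  /-- rational Chow rings over `k` with blow-ups; `T.hom` are the ideals of the numerically trivial cycles -/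
  T : BlowupTheory.{u, v, w} 𝒱
  R : Degrees T.toHomCycles
  /-- smooth quasi-projective schemes over `k` -/
  O : BettiCycles.{u, v, w} 𝒰
  I : Inclusion T.toHomCycles O
  /-- connected smooth projective varieties over the complex numbers -/
  C : BettiCycles.{u, v, w} 𝒲

namespace CyclesOver

variable {𝒱 : Type u} [Category.{v} 𝒱] [HasFiniteProducts 𝒱] {𝒰 : Type u} [Category.{v} 𝒰] {𝒲 : Type u}
  [Category.{v} 𝒲] [HasFiniteProducts 𝒲] (Θ : CyclesOver.{u, v, w} 𝒱 𝒰 𝒲)

/-- a homologically trivial cycle of codimension zero on a connected variety is zero -/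
def HomZero : Prop := ∀ {X : 𝒲} (a : Θ.C.A X), Codim Θ.C.toCycles 0 a → Θ.C.IsHom a → a = 0

/-- every smooth quasi-projective scheme has a compactification -/
def Compactify : Prop := ∀ U : 𝒰, ∃ K : Compactification Θ.I U, K.IsSmooth Θ.R

/-- every complex variety with a cycle is defined over an extension of `k` of finite transcendence degree -/
def Spread : Prop := ∀ (X : 𝒲) (p : ℕ) (a : Θ.C.A X), Codim Θ.C.toCycles p a →
  ∃ n : ℕ, DefinedOver Θ.O Θ.C a p n

/-- the rational varieties over `k` define complex varieties -/
def Complexify : Prop := ∀ Y : 𝒱, Θ.T.Rational Y →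
  ∃ M : Complexification Θ.T.toHomCycles Θ.C Y, M.IsBaseChange Θ.R

/-- The standard properties of cycles over `k` and over the complex numbers. -/
structure Standard : Prop where
  degrees : Θ.R.Standard
  pull_O : Θ.O.PullBack
  compatible : Θ.I.Compatible
  pull_C : Θ.C.PullBack
  hom_zero : Θ.HomZero
  compactify : Θ.Compactify
  spread : Θ.Spread
  complexify : Θ.Complexify

/-- Voevodsky's conjecture over `k`, in its numerical form, for the powers `b = D ^ r` of one divisor `D` on a
rational variety over `k` of dimension `2 r` -/
def VoevodskyDivisors : Prop := ∀ (Y : 𝒱) (b : Θ.T.A Y), Θ.T.Rational Y → MiddlePower Θ.T.toChowTheory b →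
  IsNum b → ∃ m : ℕ, 1 ≤ m ∧ PowerZero Θ.T.toCycles b m

/-- There are a rational variety `Y` over `k` and a numerically trivial power `b = D ^ r` of a divisor `D` over
`k` on `Y`, where `r` is half the dimension, such that `b ^ (× m) = 0` implies `a ^ (× m (n + 1)) = 0`. -/
def ComesFromDivisor {X : 𝒲} (a : Θ.C.A X) (n : ℕ) : Prop :=
  ∃ (Y : 𝒱) (b : Θ.T.A Y), Θ.T.Rational Y ∧ MiddlePower Θ.T.toChowTheory b ∧ IsNum b ∧
    ∀ m : ℕ, PowerZero Θ.T.toCycles b m → PowerZero Θ.C.toCycles a (m * (n + 1))

end CyclesOver

end Pool.Agent.Helper5.Zq
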