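import Pool.Agent.Helper5.Zq.Defs
import Pool.Agent.Helper53.Smash.Main

/-!
# From the field `k` to the complex numbers
-/

set_option autoImplicit false
set_option linter.unusedVariables false

open CategoryTheory CategoryTheory.Limits

namespace Pool.Agent.Helper5.Zq

open Pool.Agent.Helper81.Smash Pool.Agent.Helper53.Smash

universe u v w

section key

variable {𝒱 : Type u} [Category.{v} 𝒱] [HasFiniteProducts 𝒱]

/-- the reduction to powers of divisors on rational varieties over `k` -/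
lemma exists_middlePower (T : BlowupTheory.{u, v, w} 𝒱) {X : 𝒱} {i : ℕ} {a : T.A X} (ha : a ∈ T.gr X i)
    (hh : a ∈ T.hom X) : ∃ (Y : 𝒱) (b : T.A Y), T.Rational Y ∧ MiddlePower T.toChowTheory b ∧ b ∈ T.hom Y ∧
      T.SameSmash b a := by
  have h1 : T.pull (T.proj (T.blowup X).normal) a ∈ T.gr _ i := T.pull_gr _ ha
  obtain ⟨Y, L, r, hY, _, h2, h3, h4, h5⟩ := main' T.toChowTheory T.Rational (fun _ h => .prod _ h)
    (fun _ _ h0 h => .bundle _ _ h0 h) (.blow X) (Nat.le_add_left 1 i) ((T.blowup X).gysin.isPush.1 _ _ h1)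
  exact ⟨Y, T.c L 1 ^ r, hY, ⟨L, r, h3, h2, rfl⟩, h4 ((T.blowup X).gysin.isPush.2 _ (T.pull_hom _ hh)),
    fun m => (h5 m).trans (smash_gysin_iff T.toChowTheory (T.blowup X) a m)⟩

variable {T : BlowupTheory.{u, v, w} 𝒱}

/-- Voevodsky's conjecture (numerical form) over `k` implies the standard conjecture D over `k` -/
lemma Degrees.standardD {R : Degrees T.toHomCycles} (hR : R.Standard) (h : T.Voevodsky) : R.StandardD := by
  intro X a ha
  have h1 : Submodule.span ℚ {b : T.A X | IsNum b ∧ ∃ i : ℕ, Codim T.toCycles i b} ≤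
      (R.betti X).restrictScalars ℚ := by
    refine Submodule.span_le.mpr ?_
    rintro b ⟨hb, i, hi⟩
    obtain ⟨m, hm, h0⟩ := h X i b hi hb
    refine hR.kunneth b m hm ?_
    rw [h0]
    exact (R.betti _).zero_mem
  exact h1 (hR.homogeneous a ha)

end key

/-! ### Linear algebra: cycles modulo numerical equivalence -/

section duality

variable {𝒱 : Type u} [Category.{v} 𝒱] [HasFiniteProducts 𝒱] {S : HomCycles.{u, v, w} 𝒱}

/-- every linear form on cycles modulo numerical equivalence is the intersection number with a cycle -/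
lemma Degrees.exists_dual {R : Degrees S} (hR : R.Standard) {X : 𝒱} (φ : S.A X →ₗ[ℚ] ℚ)
    (hφ : ∀ a ∈ S.hom X, φ a = 0) : ∃ y : S.A X, ∀ a, φ a = R.deg X (a * y) := by
  have hnum : ∀ a : S.A X, a ∈ S.hom X ↔ ∀ b : S.A X, R.deg X (a * b) = 0 := fun a => hR.num_iff a
  let J : Submodule ℚ (S.A X) := (S.hom X).restrictScalars ℚ
  have hfin : Module.Finite ℚ (S.A X ⧸ J) := hR.finite X
  let P : S.A X →ₗ[ℚ] S.A X →ₗ[ℚ] ℚ := (LinearMap.mul ℚ (S.A X)).compr₂ (R.deg X)
  have hP : ∀ a b, P a b = R.deg X (a * b) := fun a b => rfl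
  have hJ : ∀ y, J ≤ LinearMap.ker (P y) := by
    intro y a ha
    rw [LinearMap.mem_ker, hP, mul_comm]
    exact (hnum a).mp ha y
  -- the map from cycles to linear forms on cycles modulo numerical equivalence
  let B : S.A X →ₗ[ℚ] Module.Dual ℚ (S.A X ⧸ J) :=
    { toFun := fun y => J.liftQ (P y) (hJ y)
      map_add' := fun y z => by
        refine Submodule.linearMap_qext _ (LinearMap.ext fun a => ?_)
        simp [map_add]
      map_smul' := fun c y => by
        refine Submodule.linearMap_qext _ (LinearMap.ext fun a => ?_)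
        simp }
  have hB : ∀ y a, B y (J.mkQ a) = R.deg X (y * a) := fun y a => rfl
  have hker : J = LinearMap.ker B := by
    ext y
    rw [LinearMap.mem_ker]
    constructor
    · intro hy
      refine Submodule.linearMap_qext _ (LinearMap.ext fun a => ?_)
      exact (hnum y).mp hy a
    · intro hy
      refine (hnum y).mpr fun a => ?_
      rw [← hB, hy]
      rfl
  let B' : (S.A X ⧸ J) →ₗ[ℚ] Module.Dual ℚ (S.A X ⧸ J) := J.liftQ B hker.le
  have hinj : Function.Injective B' := by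
    rw [← LinearMap.ker_eq_bot]
    exact Submodule.ker_liftQ_eq_bot _ _ _ hker.ge
  have hsurj : Function.Surjective B' :=
    (LinearMap.injective_iff_surjective_of_finrank_eq_finrank Subspace.dual_finrank_eq.symm).mp hinj
  obtain ⟨z, hz⟩ := hsurj (J.liftQ φ fun a ha => hφ a ha)
  obtain ⟨y, rfl⟩ := J.mkQ_surjective z
  refine ⟨y, fun a => ?_⟩
  have h1 := LinearMap.congr_fun hz (J.mkQ a)
  have h2 : B' (J.mkQ y) (J.mkQ a) = R.deg X (y * a) := rfl
  rw [h2] at h1
  rw [mul_comm, h1]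
  rfl

end duality

/-! ### Homologically trivial cycles on open varieties extend to numerically trivial cycles -/

section lift

variable {𝒱 : Type u} [Category.{v} 𝒱] [HasFiniteProducts 𝒱]
  {𝒰 : Type u} [Category.{v} 𝒰] {S : HomCycles.{u, v, w} 𝒱}
  {O : BettiCycles.{u, v, w} 𝒰}

lemma exists_extension {R : Degrees S} (hR : R.Standard) (hD : R.StandardD) {I : Inclusion S O} {U : 𝒰}
    {K : Compactification I U} (hK : K.IsSmooth R) {i : ℕ} (hi : 1 ≤ i) {u : O.A U}
    (hu : Codim O.toCycles i u) (hu' : O.IsHom u) :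
    ∃ x : S.A K.X, Codim S.toCycles i x ∧ IsNum x ∧ K.onU x = u := by
  obtain ⟨x, hx⟩ := hK.closures u
  -- `x` is in the span of the push-forwards modulo numerical equivalence
  let Q : Submodule ℚ (S.A K.X) := Submodule.span ℚ {y | ∃ l z, y = K.push l z}
  let P : Submodule ℚ (S.A K.X) := Q ⊔ (S.hom K.X).restrictScalars ℚ
  have hxP : x ∈ P := by
    by_contra hn
    obtain ⟨φ, hφ, hφP⟩ : ∃ φ : S.A K.X →ₗ[ℚ] ℚ, φ x ≠ 0 ∧ P ≤ LinearMap.ker φ :=
      Submodule.exists_le_ker_of_notMem hn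
    obtain ⟨y, hy⟩ := Degrees.exists_dual hR φ fun a ha => hφP (Submodule.mem_sup_right ha)
    refine hφ ?_
    rw [hy]
    refine hK.deligne x y (by rw [hx]; exact hu') fun l => hD _ _ ((hR.num_iff _).mpr fun z => ?_)
    have h1 : R.number (K.push l z) y = R.number z (K.onZ l y) := hK.projection l z y
    have h2 : R.number (K.onZ l y) z = R.number z (K.onZ l y) := by
      unfold Degrees.number
      rw [mul_comm]
    have h3 : φ (K.push l z) = R.number (K.push l z) y := hy _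
    rw [h2, ← h1, ← h3]
    exact hφP (Submodule.mem_sup_left (Submodule.subset_span ⟨l, z, rfl⟩))
  obtain ⟨s, hs, t, ht, hst⟩ := Submodule.mem_sup.mp hxP
  have hs0 : K.onU s = 0 := by
    have h1 : Q ≤ LinearMap.ker ((O.pull K.j).comp (I.cyc K.X)).toLinearMap := by
      refine Submodule.span_le.mpr ?_
      rintro _ ⟨l, z, rfl⟩
      exact hK.boundary l z
    exact h1 hs
  have ht1 : K.onU t = u := by
    rw [← hx, ← hst]
    unfold Compactification.onU pb Inclusion.cycle at hs0 ⊢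
    rw [map_add, map_add, hs0, zero_add]
  obtain ⟨y, hy, hy1, hy2⟩ := hK.components i t hi ht (by rw [ht1]; exact hu)
  exact ⟨y, hy, hy1, by rw [hy2, ht1]⟩

/-- the exterior power of a cycle on a projective scheme, pulled back to an open scheme -/
lemma prod_pull_eq_zero {I : Inclusion S O} (hI : I.Compatible) {X : 𝒱} {W : 𝒰} {m : ℕ}
    (g : Fin m → (W ⟶ I.incl.obj X)) {x : S.A X} (hx : S.smash x m = 0) :
    ∏ k, O.pull (g k) (I.cyc X x) = 0 := by
  have := I.preserves
  have hl := isLimitOfHasProductOfPreservesLimit I.incl (fun _ : Fin m => X)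
  obtain ⟨h, hh⟩ : ∃ h : W ⟶ I.incl.obj (power X m), ∀ k, h ≫ I.incl.map (coord X k) = g k :=
    ⟨Fan.IsLimit.lift hl g, fun k => Fan.IsLimit.fac hl g k⟩
  have h1 : ∀ k, O.pull (g k) (I.cyc X x) = O.pull h (I.cyc _ (S.pull (coord X k) x)) := by
    intro k
    rw [← hh k, O.pull_comp]
    exact congrArg _ (hI (coord X k) x).symm
  rw [Finset.prod_congr rfl fun k _ => h1 k, ← map_prod, ← map_prod]
  have h2 : ∏ k, S.pull (coord X k) x = 0 := hx
  rw [h2, map_zero, map_zero]

end lift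

/-! ### Spreading out -/

section spread

lemma prod_mem_gr {𝒰 : Type u} [Category.{v} 𝒰] (O : Cycles.{u, v, w} 𝒰) {U : 𝒰} {i : ℕ} {ι : Type*}
    (s : Finset ι) (x : ι → O.A U) (hx : ∀ j ∈ s, x j ∈ O.gr U i) : ∏ j ∈ s, x j ∈ O.gr U (i * s.card) := by
  classical
  induction s using Finset.induction_on with
  | empty => simpa using O.one_mem U
  | insert a s ha ih =>
    rw [Finset.prod_insert ha, Finset.card_insert_of_notMem ha, mul_add, mul_one, add_comm]
    exact O.mul_mem (hx a (Finset.mem_insert_self _ _)) (ih fun j hj => hx j (Finset.mem_insert_of_mem hj))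

variable {𝒱 : Type u} [Category.{v} 𝒱] [HasFiniteProducts 𝒱] {𝒰 : Type u} [Category.{v} 𝒰]
  {𝒲 : Type u} [Category.{v} 𝒲] [HasFiniteProducts 𝒲]

/-- a product of `n + 1` cycles which are homologically trivial on the generic fibre is homologically trivial -/
lemma Spreading.prod_mem {O : BettiCycles.{u, v, w} 𝒰} {C : BettiCycles.{u, v, w} 𝒲} {X : 𝒲}
    {a : C.A X} {p n : ℕ} {S : Spreading O C X} (hS : S.IsSpreading a p n) {m : ℕ}
    (x : Fin (n + 1) → O.A (S.toFamily.fibrePower m)) (hx : ∀ j, C.IsHom (S.gen (x j))) :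
    O.IsHom (∏ j, x j) := by
  have h : ∀ (N : ℕ) (y : Fin N → O.A (S.toFamily.fibrePower m)),
      (∀ j, C.IsHom (S.gen (y j))) → S.InLeray N (∏ j, y j) := by
    intro N
    induction N with
    | zero =>
      intro y _
      exact hS.leray_zero _ _
    | succ N ih =>
      intro y hy
      rw [Fin.prod_univ_castSucc]
      exact hS.leray_mul m N 1 _ _ (ih _ fun j => hy _) (hS.leray_one m _ (hy _))
  exact hS.artin m _ (h (n + 1) x hx)

/-- Assume D. A homologically trivial cycle over the complex numbers comes with a numerically trivial cycle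
over `k` whose smash-nilpotence implies its smash-nilpotence. -/
theorem exists_projective {Θ : CyclesOver.{u, v, w} 𝒱 𝒰 𝒲} (hΘ : Θ.Standard) (hD : Θ.R.StandardD)
    {X : 𝒲} {p : ℕ} (hp : 1 ≤ p) {a : Θ.C.A X} (ha : Θ.C.IsHom a) {n : ℕ}
    (h : DefinedOver Θ.O Θ.C a p n) :
    ∃ (Z : 𝒱) (x : Θ.T.A Z), Codim Θ.T.toCycles (p * (n + 1)) x ∧ IsNum x ∧
      ∀ k : ℕ, Θ.T.smash x k = 0 → Θ.C.smash a (k * (n + 1)) = 0 := by
  obtain ⟨S, hS⟩ := h
  let β : Θ.O.A (S.fibrePower (n + 1)) := ∏ j : Fin (n + 1), S.copy j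
  have hβ : Codim Θ.O.toCycles (p * (n + 1)) β := by
    have := prod_mem_gr Θ.O.toCycles Finset.univ (fun j : Fin (n + 1) => S.copy j)
      (fun j _ => (hΘ.pull_O (S.proj j) S.cycle).2 p hS.codim)
    rwa [Finset.card_univ, Fintype.card_fin] at this
  have hβ' : Θ.O.IsHom β := by
    refine Spreading.prod_mem hS (fun j => S.copy j) fun j => ?_
    rw [hS.extends_]
    exact (hΘ.pull_C _ a).1 ha
  obtain ⟨K, hK⟩ := hΘ.compactify (S.fibrePower (n + 1))
  obtain ⟨x, hx, hx1, hx2⟩ := exists_extension hΘ.degrees hD hK (Nat.mul_pos hp (Nat.succ_pos n)) hβ hβ'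
  unfold Compactification.onU pb Inclusion.cycle at hx2
  refine ⟨K.X, x, hx, hx1, fun k hk => ?_⟩
  let δ : ∀ l : Fin k, S.fibrePower (k * (n + 1)) ⟶ S.fibrePower (n + 1) := fun l =>
    WidePullback.lift (WidePullback.base _) (fun j => S.proj (finProdFinEquiv (l, j)))
      (fun j => WidePullback.π_arrow _ _)
  have hδ : ∀ l j, δ l ≫ S.proj j = S.proj (finProdFinEquiv (l, j)) := fun l j =>
    WidePullback.lift_π _ _ _ _ _
  have h1 := prod_pull_eq_zero hΘ.compatible (fun l => δ l ≫ K.j) hk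
  have h2 : ∀ l, Θ.O.pull (δ l ≫ K.j) (Θ.I.cyc K.X x) =
      ∏ j : Fin (n + 1), S.copy (finProdFinEquiv (l, j)) := by
    intro l
    rw [Θ.O.pull_comp, hx2, map_prod]
    refine Finset.prod_congr rfl fun j _ => ?_
    unfold Spreading.copy pb
    rw [← Θ.O.pull_comp, hδ]
  rw [Finset.prod_congr rfl fun l _ => h2 l, ← Fintype.prod_prod_type'
    (f := fun l j => S.copy (finProdFinEquiv (l, j))),
    Equiv.prod_comp finProdFinEquiv (fun e => S.copy e)] at h1
  have h3 := congrArg (S.generic (k * (n + 1))) h1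
  rw [map_prod, map_zero] at h3
  rw [← h3]
  exact Finset.prod_congr rfl fun e _ => (hS.extends_ _ e).symm

/-- Assume D. A homologically trivial cycle over the complex numbers comes with a divisor over `k` on a rational
variety. -/
theorem exists_rational {Θ : CyclesOver.{u, v, w} 𝒱 𝒰 𝒲} (hΘ : Θ.Standard) (hD : Θ.R.StandardD)
    {X : 𝒲} {p : ℕ} (hp : 1 ≤ p) {a : Θ.C.A X} (ha : Θ.C.IsHom a) {n : ℕ}
    (h : DefinedOver Θ.O Θ.C a p n) : Θ.ComesFromDivisor a n := by
  obtain ⟨Z, x, hx, hx1, hx2⟩ := exists_projective hΘ hD hp ha h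
  obtain ⟨Y, b, h1, h2, h3, h4⟩ := exists_middlePower Θ.T hx hx1
  exact ⟨Y, b, h1, h2, h3, fun k hk => hx2 k ((h4 k).mp hk)⟩

theorem main {Θ : CyclesOver.{u, v, w} 𝒱 𝒰 𝒲} (hΘ : Θ.Standard) :
    Θ.VoevodskyDivisors ↔ Θ.C.Voevodsky ∧ Θ.R.StandardD := by
  constructor
  · intro h
    have hV : Θ.T.Voevodsky := fun X i a ha hh => by
      obtain ⟨Y, b, h0, h1, h2, h3⟩ := exists_middlePower Θ.T ha hh
      obtain ⟨m, hm, h5⟩ := h Y b h0 h1 h2
      exact ⟨m, hm, (h3 m).mp h5⟩
    have hD : Θ.R.StandardD := Degrees.standardD hΘ.degrees hV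
    refine ⟨fun X p a ha hh => ?_, hD⟩
    rcases Nat.eq_zero_or_pos p with rfl | hp
    · refine ⟨1, le_rfl, ?_⟩
      rw [hΘ.hom_zero a ha hh]
      show ∏ k : Fin 1, Θ.C.pull (coord X k) 0 = 0
      simp
    · obtain ⟨n, hn⟩ := hΘ.spread X p a ha
      obtain ⟨Y, b, h1, h2, h3, h4⟩ := exists_rational hΘ hD hp hh hn
      obtain ⟨k, hk, hk'⟩ := h Y b h1 h2 h3
      exact ⟨k * (n + 1), Nat.mul_pos hk (Nat.succ_pos n), h4 k hk'⟩
  · rintro ⟨hC, hD⟩ Y b hY ⟨L, r, hL, hr, rfl⟩ hb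
    obtain ⟨M, hM⟩ := hΘ.complexify Y hY
    have hm : Θ.T.c L 1 ^ r ∈ Θ.T.gr Y r := Θ.T.pow_mem (Θ.T.c_one_mem L) r
    obtain ⟨m, hm1, hm2⟩ := hC M.X r _ (hM.map_codim r _ hm) (hM.map_hom _ (hD Y _ hb))
    exact ⟨m, hm1, hM.injective _ m hm2⟩

end spread

end Pool.Agent.Helper5.Zq
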